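import Pool.Agent.Run7.h106.AV.Asm
import Pool.Agent.Run7.h106.AW.Gq5

/-!
# Analytic continuation for polygons with weights depending on the width and the height, relative to
a free radius
-/

set_option autoImplicit false
set_option linter.unusedVariables false

namespace Run7.h106.AV

open Pool.Agent.H976R2 Pool.Agent.H976R2.Dir Finset Filter Topology
open Pool.Agent.N929.EX Pool.Agent.N929.EY Pool.Agent.N929.EZ
open Pool.Agent.N929.AC (Om xx cs Ext om_star s_omg)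
open Pool.Agent.H739K (KP ar lp)
open Run7.h106.AC Run7.h106.AW
open scoped Classical

noncomputable section

/-- the representation of a functional of closed words -/
def Hp5 (G : List Dir → ℝ) (b : ℕ → ℝ) (C₀ ρ : ℝ) (p : ℕ) : Prop :=
  ∀ L : Finset (ℤ × ℤ), CF L → ∀ st fl, Fill L 0 0 st fl → ∃ M : List Dir → ℝ, (∀ w, 0 ≤ M w) ∧
    (∀ w, Em L 0 0 w → sq w = 1 → 3 ≤ w.length →
      M w ≤ C₀ * ((w.length : ℝ) + 1) ^ p * ρ ^ w.length) ∧
    (∀ w, Em L 0 0 w → sq w = 1 → 3 ≤ w.length →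
      Rp (Sl L 0 0 w) (fun U => G (fl w U)) (M w)) ∧
    ∀ n, 3 ≤ n → ∑ w ∈ KP n, (if 3 ≤ (st w).length then M (st w) else 0) ≤ b n

theorem hrV_of_hp {G : List Dir → ℝ} {b : ℕ → ℝ} {C₀ ρ : ℝ} {p : ℕ} (hC₀ : 0 ≤ C₀) (hρ : 0 ≤ ρ)
    (hG0 : ∀ w, ¬ 3 ≤ w.length → G w = 0)
    (hb0 : ∀ n, 0 ≤ b n) (h : Hp5 G b C₀ ρ p) : HrV (fun w => cl w * G w) b C₀ ρ p := by
  intro L hL st fl hfl
  obtain ⟨M, hM0, hM3, hM1, hM2⟩ := h L hL st fl hfl
  refine ⟨fun w => if sq w = 1 ∧ 3 ≤ w.length then M w else 0, fun w => ?_, fun w hw => ?_,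
    fun w hw => ?_, fun n => ?_⟩ <;> beta_reduce
  · split_ifs
    · exact hM0 w
    · exact le_rfl
  · split_ifs with h1
    · exact hM3 w hw h1.1 h1.2
    · positivity
  · have hcl : ∀ U ⊆ Sl L 0 0 w, cl (fl w U) = cl w := fun U hU => cl_fl hfl hw hU
    by_cases hs : sq w = 1
    · have hcw : cl w = 1 := by unfold Pool.Agent.N929.EZ.cl; rw [if_pos hs]
      by_cases h3 : 3 ≤ w.length
      · rw [if_pos ⟨hs, h3⟩]
        refine (hM1 w hw hs h3).congr (fun U hU => ?_)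
        rw [hcl U hU, hcw, one_mul]
      · rw [if_neg (fun h => h3 h.2)]
        have hS := no_slots (L := L) h3
        refine Rp.zero.congr (fun U hU => ?_)
        rw [hS, subset_empty] at hU
        subst hU
        rw [hfl.fl_empty w hw, hG0 w h3, mul_zero]
    · have hcw : cl w = 0 := by unfold Pool.Agent.N929.EZ.cl; rw [if_neg hs]
      rw [if_neg (fun h => hs h.1)]
      refine Rp.zero.congr (fun U hU => ?_)
      rw [hcl U hU, hcw, zero_mul]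
  · by_cases hn : 3 ≤ n
    · refine le_trans (le_of_eq ?_) (hM2 n hn)
      unfold KP
      rw [sum_filter]
      refine sum_congr rfl (fun w hw => ?_)
      have hl := len_SW hw
      have hw' : w ∈ SW w.length := by rw [hl]; exact hw
      obtain ⟨e5, -⟩ := cl_st hfl hw'
      by_cases a1 : sq w = 1
      · rw [if_pos a1]
        by_cases a2 : 3 ≤ (st w).length
        · rw [if_pos ⟨e5.2 a1, a2⟩, if_pos a2]
        · rw [if_neg (fun h => a2 h.2), if_neg a2]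
      · rw [if_neg a1, if_neg (fun h => a1 (e5.1 h.1))]
    · rw [sum_eq_zero]
      · exact hb0 n
      · intro w hw
        have hl := len_SW hw
        have hw' : w ∈ SW w.length := by rw [hl]; exact hw
        have e6 := hfl.st_len w (by omega) hw'
        rw [if_neg]
        intro h
        omega

/-- analytic continuation for functionals of closed words, relative to a free radius -/
theorem kpV : ∃ κ : ℝ, 1 < κ ∧ κ ≤ 2 ∧ ∃ c : ℝ, 0 < c ∧ c ≤ 1 / 4 ∧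
    ∀ (C₀ : ℝ) (p : ℕ) (A : ℝ), 0 ≤ C₀ → 1 ≤ A → ∃ C : ℝ, 0 < C ∧
    ∀ ν : ℝ, 1 ≤ ν → H981.mu ≤ κ * ν → ν ≤ κ * H981.mu → ∀ G : List Dir → ℝ, (∀ w, 0 ≤ G w) →
      (∀ w, ¬ 3 ≤ w.length → G w = 0) → Hp5 G (fun n => A * ∑ w ∈ KP n, G w) C₀ κ p →
      (∀ x : ℝ, 0 ≤ x → ν * x < 1 → Summable (fun n : ℕ =>
        (∑ w ∈ KP (2 * (n + 2) - 1), G w) / (4 * ((n + 2 : ℕ) : ℝ)) * x ^ (2 * (n + 2)))) →
      ∃ F : ℂ → ℂ, DifferentiableOn ℂ F (Om c ν 2) ∧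
      (∀ z : ℂ, ν * ‖z‖ < 1 →
        HasSum (fun n : ℕ => (((∑ w ∈ KP (2 * (n + 2) - 1), G w) /
          (4 * ((n + 2 : ℕ) : ℝ)) : ℝ) : ℂ) * z ^ (2 * (n + 2))) (F z)) ∧
      ∀ z ∈ Om c ν 2, z ≠ 0 → cs 2 z < 1 →
        ‖deriv F z‖ ≤ C * (1 + ‖deriv F (xx c ν 2 z : ℂ)‖) := by
  obtain ⟨μ, K, hμ, hK, hlow, hupp, -⟩ := s_gen
  have hmu := mu_eq hμ hK hlow hupp
  obtain ⟨κ, hκ1, hκ2, c, hc, hc4, h⟩ := acV (show 2 ≤ μ by linarith) hK hupp
  rw [hmu] at h hμ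
  refine ⟨κ, hκ1, hκ2, c, hc, hc4, fun C₀ p A hC₀ hA => ?_⟩
  obtain ⟨C, hC, h'⟩ := h C₀ p hC₀
  refine ⟨max C A, lt_max_of_lt_left hC, fun ν hν hν1 hν2 G hG0 hG3 hHp hS => ?_⟩
  have hu : ∀ n, 0 ≤ ∑ w ∈ KP n, G w := fun n => sum_nonneg fun w _ => hG0 w
  have e : ∀ n, ∑ w ∈ SW n, Pool.Agent.N929.EZ.cl w * G w = ∑ w ∈ KP n, G w := fun n => sum_cl n G
  have hS' := summ_of hν (u := fun n => ∑ w ∈ KP n, G w) hu (KP_zero hG3) hS
  obtain ⟨f, f1, f2, f3⟩ := h' ν hν hν1 hν2 (fun w => Pool.Agent.N929.EZ.cl w * G w)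
    (fun n => A * ∑ w ∈ KP n, G w)
    (fun n => by
      rw [sum_congr rfl fun w _ => abs_of_nonneg (mul_nonneg (cl_nonneg w) (hG0 w)), e]
      have := hu n
      nlinarith)
    (fun x hx0 hx => by
      have h1 := (hS' x hx0 hx).mul_left A
      refine h1.congr fun n => ?_
      ring)
    (hrV_of_hp hC₀ (by linarith) hG3 (fun n => mul_nonneg (by linarith) (hu n)) hHp)
  have hE : Ext c ν 2 (fun n => ∑ w ∈ KP n, G w) f := by
    refine ⟨f1, fun z hz => ?_⟩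
    have h1 := f2 z hz
    have e' : ∀ n, az (fun w => Pool.Agent.N929.EZ.cl w * G w) n = ∑ w ∈ KP n, G w := fun n => e n
    simp only [e'] at h1
    exact h1
  obtain ⟨F, F1, F2⟩ := poly_nu hc hν hG3 hE
  refine ⟨F, fun z hz => (F1 z hz).differentiableAt.differentiableWithinAt, F2,
    fun z hz hz0 hz1 => ?_⟩
  obtain ⟨-, h2⟩ := f3 z hz hz0 hz1
  have h3 : ∑' n, A * (∑ w ∈ KP n, G w) * xx c ν 2 z ^ n = A * ‖f (xx c ν 2 z : ℂ)‖ := by
    rw [← at_nu hc hc4 hν hu hE.2 hz1, ← tsum_mul_left]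
    refine tsum_congr fun n => ?_
    ring
  rw [h3] at h2
  obtain ⟨hx0, hx⟩ := xx_nu hc hc4 hν hz1
  have hxm : (xx c ν 2 z : ℂ) ∈ Om c ν 2 := by
    refine (dom_nu hc hν).2.2.1 _ ?_
    rw [Complex.norm_real, Real.norm_of_nonneg hx0.le]
    exact hx
  rw [(F1 z hz).deriv, (F1 _ hxm).deriv, norm_div, norm_div, Complex.norm_ofNat]
  have h4 := norm_nonneg (f (xx c ν 2 z : ℂ))
  have h5 := le_max_left C A
  have h6 := le_max_right C A
  nlinarith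

/-- the class of weights -/
def Rg (B h₀ : ℝ) (g : ℕ → ℕ → ℝ) : Prop :=
  (∀ a b, 0 ≤ g a b ∧ g a b ≤ B * Real.exp (h₀ * ((a : ℝ) + b))) ∧
    ∀ a b i j, i ≤ 2 → j ≤ 2 → g (a + i) (b + j) ≤ B * g a b ∧ g a b ≤ B * g (a + i) (b + j)

/-- the functional -/
def Gg (g : ℕ → ℕ → ℝ) (w : List Dir) : ℝ :=
  if 3 ≤ w.length then g (mxx w - mnx w).toNat (mxy w - mny w).toNat else 0

theorem Gg_nonneg {B h₀ : ℝ} {g : ℕ → ℕ → ℝ} (hg : Rg B h₀ g) (w : List Dir) : 0 ≤ Gg g w := by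
  unfold Gg
  split_ifs
  · exact (hg.1 _ _).1
  · exact le_rfl

/-- the extents after filling the slots -/
theorem ext_st {L : Finset (ℤ × ℤ)} (hL : CF L) {st : List Dir → List Dir}
    {fl : List Dir → Finset (ℤ × ℤ) → List Dir} (hfl : Fill L 0 0 st fl) {w : List Dir}
    (hw : w ∈ SW w.length) : ∃ i j : ℕ, i ≤ 2 ∧ j ≤ 2 ∧
      (mxx w - mnx w).toNat = (mxx (st w) - mnx (st w)).toNat + i ∧
      (mxy w - mny w).toNat = (mxy (st w) - mny (st w)).toNat + j := by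
  obtain ⟨e5, e1, e3, e2⟩ := cl_st hfl hw
  obtain ⟨a1, a2, a3, a4, -⟩ := Pool.Agent.N426.EZ.xt L hL 0 0 st fl hfl (st w) e1 _ e3
  rw [e2] at a1 a2 a3 a4
  obtain ⟨x, hx⟩ : ∃ x : ℤ, x = mxx (st w) - mnx (st w) := ⟨_, rfl⟩
  obtain ⟨y, hy⟩ : ∃ y : ℤ, y = mxy (st w) - mny (st w) := ⟨_, rfl⟩
  obtain ⟨e7, e8⟩ := ext_nonneg (st w)
  have hx0 : 0 ≤ x := by omega
  have hy0 : 0 ≤ y := by omega
  obtain ⟨p1, hp1⟩ : ∃ i : ℕ, i ≤ 1 ∧ (if ∃ q ∈ Oc L 0 0 w, q.1 = mxx (st w) then (1 : ℤ) else 0) =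
      (i : ℤ) := by
    split_ifs
    · exact ⟨1, le_rfl, rfl⟩
    · exact ⟨0, by norm_num, rfl⟩
  obtain ⟨p2, hp2⟩ : ∃ i : ℕ, i ≤ 1 ∧ (if ∃ q ∈ Oc L 0 0 w, q.1 + 1 = mnx (st w) then (1 : ℤ)
      else 0) = (i : ℤ) := by
    split_ifs
    · exact ⟨1, le_rfl, rfl⟩
    · exact ⟨0, by norm_num, rfl⟩
  obtain ⟨p3, hp3⟩ : ∃ i : ℕ, i ≤ 1 ∧ (if ∃ q ∈ Oc L 0 0 w, q.2 = mxy (st w) then (1 : ℤ) else 0) =
      (i : ℤ) := by
    split_ifs
    · exact ⟨1, le_rfl, rfl⟩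
    · exact ⟨0, by norm_num, rfl⟩
  obtain ⟨p4, hp4⟩ : ∃ i : ℕ, i ≤ 1 ∧ (if ∃ q ∈ Oc L 0 0 w, q.2 + 1 = mny (st w) then (1 : ℤ)
      else 0) = (i : ℤ) := by
    split_ifs
    · exact ⟨1, le_rfl, rfl⟩
    · exact ⟨0, by norm_num, rfl⟩
  refine ⟨p1 + p2, p3 + p4, by omega, by omega, ?_, ?_⟩
  · have e : mxx w - mnx w = x + p1 + p2 := by
      rw [a1, a2, hp1.2, hp2.2, hx]
      ring
    rw [← hx]
    omega
  · have e : mxy w - mny w = y + p3 + p4 := by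
      rw [a3, a4, hp3.2, hp4.2, hy]
      ring
    rw [← hy]
    omega

theorem Gg_hp {κ B : ℝ} (hκ : 1 < κ) (hB : 1 ≤ B) {g : ℕ → ℕ → ℝ}
    (hg : Rg B (Real.log κ / 2) g) :
    Hp5 (Gg g) (fun n => (81 * B ^ 2) * ∑ w ∈ KP n, Gg g w) (81 * B ^ 2) κ 0 := by
  have hB0 : 0 ≤ B := by linarith
  have hκ0 : 0 < κ := by linarith
  have hlog : 0 < Real.log κ := Real.log_pos hκ
  intro L hL st fl hfl
  refine ⟨fun w => 81 * (B * g (mxx w - mnx w).toNat (mxy w - mny w).toNat), fun w => ?_,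
    fun w hw hs h3 => ?_, fun w hw hs h3 => ?_, fun n hn => ?_⟩
  · have := (hg.1 (mxx w - mnx w).toNat (mxy w - mny w).toNat).1
    positivity
  · obtain ⟨e1, e2⟩ := ext_le w
    obtain ⟨e3, e4⟩ := ext_nonneg w
    have h1 := (hg.1 (mxx w - mnx w).toNat (mxy w - mny w).toNat).2
    have h2 : (((mxx w - mnx w).toNat : ℝ)) + ((mxy w - mny w).toNat : ℝ) ≤ 2 * w.length := by
      have : (mxx w - mnx w).toNat + (mxy w - mny w).toNat ≤ 2 * w.length := by omega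
      exact_mod_cast this
    have h3 : Real.exp (Real.log κ / 2 * ((((mxx w - mnx w).toNat : ℝ)) +
        ((mxy w - mny w).toNat : ℝ))) ≤ κ ^ w.length := by
      calc _ ≤ Real.exp (w.length * Real.log κ) := by
            refine Real.exp_le_exp.2 ?_
            nlinarith
        _ = κ ^ w.length := by rw [Real.exp_nat_mul, Real.exp_log hκ0]
    have h4 : g (mxx w - mnx w).toNat (mxy w - mny w).toNat ≤ B * κ ^ w.length :=
      h1.trans (mul_le_mul_of_nonneg_left h3 hB0)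
    calc 81 * (B * g (mxx w - mnx w).toNat (mxy w - mny w).toNat)
        ≤ 81 * (B * (B * κ ^ w.length)) := by gcongr
      _ = _ := by rw [pow_zero]; ring
  · obtain ⟨e3, e4⟩ := ext_nonneg w
    have h2 := ext_rep hL hfl hw (fun a b => g a.toNat b.toNat)
      (B * g (mxx w - mnx w).toNat (mxy w - mny w).toNat)
      (fun i j h1 h2 h3 h4 => by
        rw [abs_of_nonneg (hg.1 _ _).1]
        have a1 : (mxx w - mnx w + i).toNat = (mxx w - mnx w).toNat + i.toNat := by omega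
        have a2 : (mxy w - mny w + j).toNat = (mxy w - mny w).toNat + j.toNat := by omega
        rw [a1, a2]
        exact (hg.2 _ _ _ _ (by omega) (by omega)).1)
    refine h2.congr (fun U hU => ?_)
    unfold Gg
    rw [if_pos (by rw [hfl.fl_len w U hw hU]; omega)]
  · beta_reduce
    rw [mul_sum]
    refine sum_le_sum fun w hw => ?_
    obtain ⟨hwn, hs, hl⟩ := KP_mem hw
    have hw' : w ∈ SW w.length := by rw [hl]; exact hwn
    have h0 := Gg_nonneg hg w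
    split_ifs with h3
    · obtain ⟨i, j, hi, hj, e1, e2⟩ := ext_st hL hfl hw'
      have h4 := (hg.2 (mxx (st w) - mnx (st w)).toNat (mxy (st w) - mny (st w)).toNat i j hi hj).2
      rw [← e1, ← e2] at h4
      unfold Gg
      rw [if_pos (by omega)]
      calc 81 * (B * g (mxx (st w) - mnx (st w)).toNat (mxy (st w) - mny (st w)).toNat)
          ≤ 81 * (B * (B * g (mxx w - mnx w).toNat (mxy w - mny w).toNat)) := by gcongr
        _ = _ := by ring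
    · positivity

/-- the sum over loops -/
theorem loop_Gg {n : ℕ} (hn : 2 ≤ n) (g : ℕ → ℕ → ℝ) :
    ∑ᶠ f ∈ {f : ZMod (2 * n) → ℤ × ℤ | Pool.Agent.H924P.IsLoop (2 * n) f},
      g (Pool.Agent.H924P.width (2 * n) f) (Pool.Agent.H924P.height (2 * n) f) =
      ∑ w ∈ KP (2 * n - 1), Gg g w := by
  rw [loop_sum hn]
  refine sum_congr rfl fun w hw => ?_
  obtain ⟨h1, h2, h3⟩ := width_word hn hw
  unfold Gg
  have hl := (KP_mem hw).2.2
  rw [if_pos (by omega), ← h1, ← h2]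
  simp only [Int.toNat_natCast]

end

end Run7.h106.AV
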